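import Mathlib

/-! MP_d51aa1_ag: the definitions used in the hand-in. -/

set_option autoImplicit false

universe u

namespace H321.FANU.D

/-- A `K`-point of the Fano scheme `F_10(D^4_{5,5})`: a projective 10-plane in `P(K^{5x5})`, that is an 11-dimensional
linear space of 5x5 matrices, all of whose elements have rank at most 3 (all 4x4 minors vanish). -/
def FanoPoint (K : Type u) [Field K] : Type u :=
  {U : Submodule K (Matrix (Fin 5) (Fin 5) K) // Module.finrank K U = 11 ∧ ∀ X ∈ U, X.rank ≤ 3}

/-- Zariski closed sets of points: for some set `S` of polynomials in `11 · 25` variables, a point `U` belongs to `C` if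
and only if all members of `S` vanish at the bases `b` of `U`. -/
def ZariskiClosed (K : Type u) [Field K] (C : Set (FanoPoint K)) : Prop :=
  ∃ S : Set (MvPolynomial (Fin 11 × Fin 5 × Fin 5) K), ∀ (U : FanoPoint K) (b : Fin 11 → Matrix (Fin 5) (Fin 5) K),
    Submodule.span K (Set.range b) = U.1 →
      (U ∈ C ↔ ∀ f ∈ S, MvPolynomial.eval (fun i => b i.1 i.2.1 i.2.2) f = 0)

end H321.FANU.D
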