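import Mathlib

/-! MP_d51aa1_ag: blueprint. The Fano scheme `F_10(D^4_{5,5})` is disconnected.
Prove `theorem main : TaskX` (deps as hypotheses exactly as in the statement) in
`Pool/Agent/Q321/FANU/TaskX.lean`, namespace `H321.FANU.TaskX` (import Pool.Agent.Q321.FANU.Stmts,
`open Matrix H321.FANU`).

Paper proof. `U` = 11-dimensional space of 5x5 matrices of rank ≤ 3. By Flanders (dim ≤ 10 if all ranks are ≤ 2) there is
an element of rank 3, wlog `diag(1,1,1,0,0)`. Then every element is `[M P; Q 0]` with `QP = QMP = QMMP = 0` (3+2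
blocks). `N` = space of the triples `(M,P,Q)`, dimension 11. Claim (Good): all `Q = 0`, or all `P = 0`, or there is a
subspace `W` with `im P ⊆ W ⊆ ker Q`, `M W ⊆ W`. So `U` maps `V` to `W'` with dimensions (5,3), (4,2), (3,1), (2,0).
(5,3) and (4,2) form a closed set (for all v1 v2 v3: the spaces {(Xv1,Xv2)}, {(Xv1,Xv2,Xv3)} have dimension ≤ 7, ≤ 9),
disjoint from (3,1), (2,0); the transposes give the other closed set. -/

set_option autoImplicit false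

universe u

namespace H321.FANU

open Matrix

/-! ### triples -/

abbrev Tr (K : Type u) [Field K] :=
  Matrix (Fin 3) (Fin 3) K × Matrix (Fin 3) (Fin 2) K × Matrix (Fin 2) (Fin 3) K

/-- the block conditions; `x.1 = M`, `x.2.1 = P`, `x.2.2 = Q` -/
structure Blk (K : Type u) [Field K] (N : Submodule K (Tr K)) : Prop where
  one : ((1, 0, 0) : Tr K) ∈ N
  dim : Module.finrank K N = 11
  c0 : ∀ x ∈ N, x.2.2 * x.2.1 = 0
  c1 : ∀ x ∈ N, x.2.2 * x.1 * x.2.1 = 0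
  c2 : ∀ x ∈ N, x.2.2 * (x.1 * x.1) * x.2.1 = 0

def Good (K : Type u) [Field K] (N : Submodule K (Tr K)) : Prop :=
  (∀ x ∈ N, x.2.2 = 0) ∨ (∀ x ∈ N, x.2.1 = 0) ∨
  ∃ W : Submodule K (Fin 3 → K), (∀ x ∈ N, ∀ w, x.2.1 *ᵥ w ∈ W) ∧ (∀ x ∈ N, ∀ v ∈ W, x.2.2 *ᵥ v = 0) ∧
    ∀ x ∈ N, ∀ v ∈ W, x.1 *ᵥ v ∈ W

/-- spaces of matrices of rank ≤ 1: if two elements `p ⊗ w`, `p' ⊗ w'` have independent `p, p'` then `w ∥ w'` etc. -/
def TaskRankOne : Prop := ∀ (K : Type u) [Field K] (m n : ℕ) (S : Submodule K (Matrix (Fin m) (Fin n) K)),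
  (∀ P ∈ S, P.rank ≤ 1) →
  (∃ p0 : Fin m → K, ∀ P ∈ S, ∃ w, P = vecMulVec p0 w) ∨ (∃ w0 : Fin n → K, ∀ P ∈ S, ∃ p, P = vecMulVec p w0)

/-- polarised relations: apply c0, c1, c2 to `x + s (Z,0,0)` and `x + y` -/
def TaskPol : Prop := ∀ (K : Type u) [Field K] [Infinite K] (N : Submodule K (Tr K)), Blk K N →
  (∀ x ∈ N, ∀ y ∈ N, x.2.2 * y.2.1 + y.2.2 * x.2.1 = 0) ∧
  (∀ x ∈ N, ∀ Z, ((Z, 0, 0) : Tr K) ∈ N → x.2.2 * Z * x.2.1 = 0) ∧
  (∀ x ∈ N, ∀ Z, ((Z, 0, 0) : Tr K) ∈ N → x.2.2 * (x.1 * Z + Z * x.1) * x.2.1 = 0) ∧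
  (∀ x ∈ N, ∀ y ∈ N, ∀ Z, ((Z, 0, 0) : Tr K) ∈ N → x.2.2 * Z * y.2.1 + y.2.2 * Z * x.2.1 = 0)

/-- all `P = p0 ⊗ w`, some `P ≠ 0`, some `Q` of rank 2. Take `x0 ∈ N` with both (a line contains it for all but finitely
many parameters). `Q0 p0 = 0`, so `ker Q0 = <p0>`, and `Q0 M0 p0 = 0` gives `M0 p0 ∈ <p0>`. For `x1 ∈ N` the same for
`x0 + s x1` with one `s ≠ 0`: so `Q1 p0 = 0`, `M1 p0 ∈ <p0>`; `W = <p0>`. -/
def TaskA1 : Prop := ∀ (K : Type u) [Field K] [Infinite K] (N : Submodule K (Tr K)), Blk K N →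
  ∀ p0 : Fin 3 → K, (∀ x ∈ N, ∃ w, x.2.1 = vecMulVec p0 w) → (∃ x ∈ N, x.2.1 ≠ 0) → (∃ x ∈ N, x.2.2.rank = 2) →
  Good K N

/-- all `P = p ⊗ w0`, two of them independent, some `Q` of rank 2: impossible. For generic `x`, `ker Q = <p>` and
`Q Z P = 0` gives `Z p ∈ <p>` for `(Z,0,0) ∈ N`, so `Z` is scalar on the space of the `p`s, which contains independent
`p1, p2`: the `Z`s have dimension ≤ 4 (`Z p1, Z p2` determined by the scalar, `Z p3` free). The `Q`s with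
`(M,0,Q) ∈ N` kill `p1, p2` (TaskPol): dimension ≤ 2; the `P`s: ≤ 3. So `dim N ≤ 4 + 2 + 3`. -/
def TaskA2 : Prop := TaskPol.{u} → ∀ (K : Type u) [Field K] [Infinite K] (N : Submodule K (Tr K)), Blk K N →
  ∀ w0 : Fin 2 → K, (∀ x ∈ N, ∃ p, x.2.1 = vecMulVec p w0) →
  (∃ x ∈ N, ∃ y ∈ N, LinearIndependent K ![x.2.1, y.2.1]) → (∃ x ∈ N, x.2.2.rank = 2) → False

/-- all `P = p0 ⊗ w`, all `Q = u ⊗ q0`, some `P ≠ 0`, some `Q ≠ 0`: for generic `x` `q0 M^k p0 = 0`, `k ≤ 2`, so for all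
`x` (polynomial in the parameter of a line). The product of the linear forms... with basis `p0 = e1`,
`ker q0 = <e1,e2>`: `M31 = 0`, `M32 M21 = 0` on `N`, so one of `M32`, `M21` vanishes on `N` (a vector space is not the
union of two proper subspaces): `W = <p0>` or `W = ker q0`. -/
def TaskC1 : Prop := ∀ (K : Type u) [Field K] [Infinite K] (N : Submodule K (Tr K)), Blk K N →
  ∀ (p0 q0 : Fin 3 → K), (∀ x ∈ N, ∃ w, x.2.1 = vecMulVec p0 w) → (∀ x ∈ N, ∃ u, x.2.2 = vecMulVec u q0) →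
  (∃ x ∈ N, x.2.1 ≠ 0) → (∃ x ∈ N, x.2.2 ≠ 0) → Good K N

/-- all `P = p0 ⊗ w`, all `Q = u0 ⊗ q`, two `Q` independent, some `P ≠ 0`. `Q p0 = 0` for all, so the `q`s form `p0^⊥`;
`Q Z P = 0` gives `Z p0 ∈ <p0>` for all `(Z,0,0) ∈ N`: dimension ≤ 7; the `(P,Q)` have dimension ≤ 2 + 2; so equality: all
`Z` with `Z p0 ∈ <p0>` occur. For generic `x`, `Q (M Z + Z M) P = 0` with `Z p0 = 0` gives `q Z M p0 = 0` for all such
`Z`, so `M p0 ∈ <p0>`; `W = <p0>`. -/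
def TaskC2 : Prop := TaskPol.{u} → ∀ (K : Type u) [Field K] [Infinite K] (N : Submodule K (Tr K)), Blk K N →
  ∀ (p0 : Fin 3 → K) (u0 : Fin 2 → K), (∀ x ∈ N, ∃ w, x.2.1 = vecMulVec p0 w) →
  (∀ x ∈ N, ∃ q, x.2.2 = vecMulVec u0 q) →
  (∃ x ∈ N, x.2.1 ≠ 0) → (∃ x ∈ N, ∃ y ∈ N, LinearIndependent K ![x.2.2, y.2.2]) → Good K N

/-- all `P = p ⊗ w0`, all `Q = u0 ⊗ q`, two `P`, two `Q` independent: impossible. The pairs `(p,q)` form an isotropic
space for `q · p` (c0), of dimension ≤ 3; so the `Z` with `(Z,0,0) ∈ N` form a space of dimension ≥ 8, and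
`q Z p = 0` for every pair `(p,q)`: so (dimension exactly 8, `Z = {tr(Z p q) = 0}`) all `p ⊗ q`, `p, q ≠ 0`, are
proportional: generic `p ∥ p1`, so all `p ∥ p1`: contradiction. -/
def TaskC4 : Prop := TaskPol.{u} → ∀ (K : Type u) [Field K] [Infinite K] (N : Submodule K (Tr K)), Blk K N →
  ∀ (w0 u0 : Fin 2 → K), (∀ x ∈ N, ∃ p, x.2.1 = vecMulVec p w0) → (∀ x ∈ N, ∃ q, x.2.2 = vecMulVec u0 q) →
  (∃ x ∈ N, ∃ y ∈ N, LinearIndependent K ![x.2.1, y.2.1]) →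
  (∃ x ∈ N, ∃ y ∈ N, LinearIndependent K ![x.2.2, y.2.2]) → False

/-- the transposed space: `(M,P,Q) ↦ (Mᵀ,Qᵀ,Pᵀ)` -/
def trT (K : Type u) [Field K] : Tr K →ₗ[K] Tr K where
  toFun x := (x.1ᵀ, x.2.2ᵀ, x.2.1ᵀ)
  map_add' x y := by simp
  map_smul' c x := by simp

/-- transposition; for `Good`: `W' = {v | ∀ w ∈ W, w ⬝ᵥ v = 0}` -/
def TaskTr : Prop := ∀ (K : Type u) [Field K] (N : Submodule K (Tr K)), Blk K N →
  Blk K (N.map (trT K)) ∧ (Good K (N.map (trT K)) → Good K N)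

/-- two ranks: an element with `rank P = 2` and one with `rank Q = 2` give (on the line through them) an element with
both, but `QP = 0` in dimension 3. -/
def TaskTwo : Prop := ∀ (K : Type u) [Field K] [Infinite K] (N : Submodule K (Tr K)), Blk K N →
  (∃ x ∈ N, x.2.2.rank = 2) → ∀ x ∈ N, x.2.1.rank ≤ 1

/-- the case distinction for `N` -/
def TaskCase : Prop := TaskRankOne.{u} → TaskPol.{u} → TaskA1.{u} → TaskA2.{u} → TaskC1.{u} → TaskC2.{u} → TaskC4.{u} → TaskTr.{u} → TaskTwo.{u} →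
  ∀ (K : Type u) [Field K] [Infinite K] (N : Submodule K (Tr K)), Blk K N → Good K N

/-! ### spaces of 5x5 matrices -/

abbrev M5 (K : Type u) [Field K] := Matrix (Fin 5) (Fin 5) K

/-- `K`-points of the Fano scheme -/
def IsFano (K : Type u) [Field K] (U : Submodule K (M5 K)) : Prop :=
  Module.finrank K U = 11 ∧ ∀ X ∈ U, X.rank ≤ 3

/-- compression type `(a, c)` -/
def Cmp (K : Type u) [Field K] (a c : ℕ) (U : Submodule K (M5 K)) : Prop :=
  ∃ V W : Submodule K (Fin 5 → K), Module.finrank K V = a ∧ Module.finrank K W = c ∧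
    ∀ X ∈ U, ∀ v ∈ V, X *ᵥ v ∈ W

/-- rank normal form; `e` = `finSumFinEquiv : Fin 3 ⊕ Fin 2 ≃ Fin 5` -/
def TaskNormal : Prop := ∀ (K : Type u) [Field K] (A : M5 K), A.rank = 3 →
  ∃ R S : M5 K, IsUnit R ∧ IsUnit S ∧
    R * A * S = (fromBlocks (1 : Matrix (Fin 3) (Fin 3) K) 0 0 (0 : Matrix (Fin 2) (Fin 2) K)).submatrix
      (finSumFinEquiv (m := 3) (n := 2)).symm (finSumFinEquiv (m := 3) (n := 2)).symm

/-- Flanders for rank ≤ 2: normal form of an element of maximal rank `r ≤ 2`; the others are `[M P; Q 0]`, `QP = 0`,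
so `dim ≤ r² + 2 r (5 - r) / ... ≤ 10`: `dim {(P,Q)} ≤ r (5 - r)`: if the `P`s have images spanning a space of dimension
`s`, `dim {P} ≤ s (5 - r)` and the `Q` with `(0,Q)` kill it. (r = 2: 4 + 6; r = 1: 1 + 4; r = 0: 0.) -/
def TaskFlanders : Prop := ∀ (K : Type u) [Field K] [Infinite K] (U : Submodule K (M5 K)),
  (∀ X ∈ U, X.rank ≤ 2) → Module.finrank K U ≤ 10

/-- coefficients in `t` of the Schur complement: `t D det(1+tM) = t² Q adj(1+tM) P`, and `adj (1+tM) =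
1 + t (tr M - M) + t² adj M`. Or 4x4 minors. -/
def TaskCoeff : Prop := ∀ (K : Type u) [Field K] [Infinite K] (M : Matrix (Fin 3) (Fin 3) K)
  (P : Matrix (Fin 3) (Fin 2) K) (Q : Matrix (Fin 2) (Fin 3) K) (D : Matrix (Fin 2) (Fin 2) K),
  (∀ t : K, (fromBlocks (1 + t • M) (t • P) (t • Q) (t • D)).rank ≤ 3) →
  D = 0 ∧ Q * P = 0 ∧ Q * M * P = 0 ∧ Q * (M * M) * P = 0

/-- assembly: every point of the Fano scheme is a compression space. `dim W ∈ {1,2}` in the third case of `Good` when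
the first two fail. `[M P; Q 0]` maps `W ⊕ K²` to `W ⊕ 0`. -/
def TaskClass : Prop := TaskNormal.{u} → TaskFlanders.{u} → TaskCoeff.{u} →
  (∀ (K : Type u) [Field K] [Infinite K] (N : Submodule K (Tr K)), Blk K N → Good K N) →
  ∀ (K : Type u) [Field K] [Infinite K] (U : Submodule K (M5 K)), IsFano K U →
    Cmp K 5 3 U ∨ Cmp K 4 2 U ∨ Cmp K 3 1 U ∨ Cmp K 2 0 U

/-! ### the two closed sets -/

/-- `X ↦ (X v_j)_j` -/
def Lk (K : Type u) [Field K] (k : ℕ) (v : Fin k → Fin 5 → K) : M5 K →ₗ[K] (Fin k → Fin 5 → K) where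
  toFun X := fun j => X *ᵥ v j
  map_add' X Y := by ext; simp [add_mulVec]
  map_smul' c X := by ext; simp [smul_mulVec]

/-- `dim {(X v_j)_j} ≤ c` for all `v` -/
def gk (K : Type u) [Field K] (k c : ℕ) (U : Submodule K (M5 K)) : Prop :=
  ∀ v : Fin k → Fin 5 → K, Module.finrank K (U.map (Lk K k v)) ≤ c

/-- `(X v)_j ∈ W × ... × W` -/
def TaskUp53 : Prop := ∀ (K : Type u) [Field K] (U : Submodule K (M5 K)), Cmp K 5 3 U → gk K 2 7 U ∧ gk K 3 9 U

/-- if all `v_j ∈ V`: ≤ 2k. Otherwise some `v_i ∉ V`, `v_j = c_j v_i + v_j'`, `v_j' ∈ V`: ≤ 5 + 2 (k - 1). -/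
def TaskUp42 : Prop := ∀ (K : Type u) [Field K] (U : Submodule K (M5 K)), Cmp K 4 2 U → gk K 2 7 U ∧ gk K 3 9 U

/-- `v_1, v_2` a basis of a complement of `V`: the kernel of `Lk` on `U` embeds in `Hom(V, W)`, dimension ≤ 3 -/
def TaskLow31 : Prop := ∀ (K : Type u) [Field K] (U : Submodule K (M5 K)), Module.finrank K U = 11 →
  Cmp K 3 1 U → ¬ gk K 2 7 U

/-- `v_1, v_2, v_3` a basis of a complement of `V`: `Lk` is injective on `U` -/
def TaskLow20 : Prop := ∀ (K : Type u) [Field K] (U : Submodule K (M5 K)), Module.finrank K U = 11 →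
  Cmp K 2 0 U → ¬ gk K 3 9 U

/-- transposed space -/
def tU (K : Type u) [Field K] (U : Submodule K (M5 K)) : Submodule K (M5 K) :=
  U.map (Matrix.transposeLinearEquiv (Fin 5) (Fin 5) K K).toLinearMap

/-- `X V ⊆ W` gives `Xᵀ W^⊥ ⊆ V^⊥` -/
def TaskTrU : Prop := ∀ (K : Type u) [Field K] (U : Submodule K (M5 K)),
  (∀ a c, a ≤ 5 → c ≤ 5 → Cmp K a c U → Cmp K (5 - c) (5 - a) (tU K U)) ∧ tU K (tU K U) = U ∧
    (IsFano K U → IsFano K (tU K U))

/-- polynomial conditions on the frames of `U` -/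
def ZC (K : Type u) [Field K] (C : Submodule K (M5 K) → Prop) : Prop :=
  ∃ S : Set (MvPolynomial (Fin 11 × Fin 5 × Fin 5) K), ∀ b : Fin 11 → M5 K, LinearIndependent K b →
    (C (Submodule.span K (Set.range b)) ↔ ∀ f ∈ S, MvPolynomial.eval (fun i => b i.1 i.2.1 i.2.2) f = 0)

/-- `gk` is closed: `rank ≤ c` of the `11 x 5k` matrix `A = (b_i v_j)` iff `det (L A R) = 0` for all matrices `L`, `R`
over `K` of sizes `(c+1) x 11`, `5k x (c+1)`. The polynomials: these determinants, for all `v`, `L`, `R`. -/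
def TaskClosed : Prop := ∀ (K : Type u) [Field K] (k c : ℕ), ZC K (gk K k c)

/-- intersections, transposes (rename the variables) -/
def TaskZC : Prop := ∀ (K : Type u) [Field K],
  (∀ C D : Submodule K (M5 K) → Prop, ZC K C → ZC K D → ZC K (fun U => C U ∧ D U)) ∧
  (∀ C : Submodule K (M5 K) → Prop, ZC K C → ZC K (fun U => C (tU K U)))

/-- an example: matrices with the last two rows zero (dimension 15), a subspace of dimension 11 -/
def TaskEx : Prop := ∀ (K : Type u) [Field K], ∃ U : Submodule K (M5 K), IsFano K U ∧ Cmp K 5 3 U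

/-- final assembly -/
def TaskFinal : Prop :=
  (∀ (K : Type u) [Field K] [Infinite K] (U : Submodule K (M5 K)), IsFano K U →
    Cmp K 5 3 U ∨ Cmp K 4 2 U ∨ Cmp K 3 1 U ∨ Cmp K 2 0 U) →
  TaskUp53.{u} → TaskUp42.{u} → TaskLow31.{u} → TaskLow20.{u} → TaskTrU.{u} → TaskClosed.{u} → TaskZC.{u} → TaskEx.{u} →
  ∀ (K : Type u) [Field K] [Infinite K], ∃ C D : Submodule K (M5 K) → Prop, ZC K C ∧ ZC K D ∧
    (∃ U, IsFano K U ∧ C U) ∧ (∃ U, IsFano K U ∧ D U) ∧ (∀ U, IsFano K U → (C U ∨ D U)) ∧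
    ∀ U, IsFano K U → ¬ (C U ∧ D U)

end H321.FANU
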