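import Pool.Agent.Q321.FANU.Stmts

set_option autoImplicit false

namespace H321.FANU.TaskC4

open Matrix H321.FANU Module

variable {K : Type*} [Field K]

/-- hyperbolic form -/
def hyp (K : Type*) [Field K] : LinearMap.BilinForm K ((Fin 3 → K) × (Fin 3 → K)) :=
  LinearMap.mk₂ K (fun x y => x.2 ⬝ᵥ y.1 + y.2 ⬝ᵥ x.1)
    (by intro a b c; simp [add_dotProduct, dotProduct_add]; ring)
    (by intro c a b; simp [smul_dotProduct, dotProduct_smul]; ring)
    (by intro a b c; simp [add_dotProduct, dotProduct_add]; ring)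
    (by intro c a b; simp [smul_dotProduct, dotProduct_smul]; ring)

theorem hyp_apply (x y : (Fin 3 → K) × (Fin 3 → K)) :
    hyp K x y = x.2 ⬝ᵥ y.1 + y.2 ⬝ᵥ x.1 := rfl

theorem iso_le (I : Submodule K ((Fin 3 → K) × (Fin 3 → K)))
    (h : ∀ x ∈ I, ∀ y ∈ I, x.2 ⬝ᵥ y.1 + y.2 ⬝ᵥ x.1 = 0) : finrank K I ≤ 3 := by
  have h1 := LinearMap.BilinForm.finrank_add_finrank_orthogonal' (B := hyp K) I
  have h2 : LinearMap.ker (hyp K) = ⊥ := by
    rw [LinearMap.ker_eq_bot']
    intro x hx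
    have hx' : ∀ y : (Fin 3 → K) × (Fin 3 → K), x.2 ⬝ᵥ y.1 + y.2 ⬝ᵥ x.1 = 0 := fun y => by
      rw [← hyp_apply, hx]; rfl
    ext i
    · have := hx' (0, Pi.single i 1)
      simpa using this
    · have := hx' (Pi.single i 1, 0)
      simpa using this
  have h3 : I ≤ (hyp K).orthogonal I := by
    intro x hx
    rw [LinearMap.BilinForm.mem_orthogonal_iff]
    intro y hy
    show hyp K y x = 0
    rw [hyp_apply]
    exact h y hy x hx
  have h4 := Submodule.finrank_mono h3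
  rw [h2, inf_bot_eq, finrank_bot] at h1
  have h5 : finrank K ((Fin 3 → K) × (Fin 3 → K)) = 6 := by
    rw [Module.finrank_prod]; simp
  omega

theorem ker_le (p1 p2 q1 q2 : Fin 3 → K) (hp : LinearIndependent K ![p1, p2]) (h1 : q1 ≠ 0)
    (h2 : q2 ≠ 0) (S : Submodule K (Matrix (Fin 3) (Fin 3) K))
    (hS : ∀ Z ∈ S, q1 ⬝ᵥ (Z *ᵥ p1) = 0 ∧ q2 ⬝ᵥ (Z *ᵥ p2) = 0) : finrank K S ≤ 7 := by
  let Φ : Matrix (Fin 3) (Fin 3) K →ₗ[K] (Fin 2 → K) :=
    { toFun := fun Z => ![q1 ⬝ᵥ (Z *ᵥ p1), q2 ⬝ᵥ (Z *ᵥ p2)]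
      map_add' := fun Z Z' => by ext i; fin_cases i <;> simp [add_mulVec, dotProduct_add]
      map_smul' := fun c Z => by ext i; fin_cases i <;> simp [smul_mulVec, dotProduct_smul] }
  have hsurj : Function.Surjective Φ := by
    intro y
    -- choose vectors
    have hex : ∀ q : Fin 3 → K, q ≠ 0 → ∀ c : K, ∃ a : Fin 3 → K, q ⬝ᵥ a = c := by
      intro q hq c
      obtain ⟨i, hi⟩ := Function.ne_iff.1 hq
      refine ⟨Pi.single i (c / q i), ?_⟩
      rw [dotProduct_single]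
      have : q i ≠ 0 := hi
      field_simp
    obtain ⟨a, ha⟩ := hex q1 h1 (y 0)
    obtain ⟨b, hb⟩ := hex q2 h2 (y 1)
    have hinj : LinearMap.ker (Fintype.linearCombination K ![p1, p2]) = ⊥ :=
      LinearMap.ker_eq_bot.2 (linearIndependent_iff_injective_fintypeLinearCombination.1 hp)
    obtain ⟨g, hg⟩ := LinearMap.exists_leftInverse_of_injective _ hinj
    have g1 : g p1 = Pi.single 0 1 := by
      have := LinearMap.congr_fun hg (Pi.single 0 1)
      simpa [Fintype.linearCombination_apply] using this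
    have g2 : g p2 = Pi.single 1 1 := by
      have := LinearMap.congr_fun hg (Pi.single 1 1)
      simpa [Fintype.linearCombination_apply] using this
    let T : (Fin 3 → K) →ₗ[K] (Fin 3 → K) :=
      (LinearMap.proj 0 ∘ₗ g).smulRight a + (LinearMap.proj 1 ∘ₗ g).smulRight b
    refine ⟨LinearMap.toMatrix' T, ?_⟩
    have t1 : LinearMap.toMatrix' T *ᵥ p1 = a := by
      rw [LinearMap.toMatrix'_mulVec]
      simp [T, g1]
    have t2 : LinearMap.toMatrix' T *ᵥ p2 = b := by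
      rw [LinearMap.toMatrix'_mulVec]
      simp [T, g2]
    show ![q1 ⬝ᵥ (LinearMap.toMatrix' T *ᵥ p1), q2 ⬝ᵥ (LinearMap.toMatrix' T *ᵥ p2)] = y
    rw [t1, t2, ha, hb]
    ext i; fin_cases i <;> rfl
  have h3 := LinearMap.finrank_range_add_finrank_ker Φ
  rw [LinearMap.range_eq_top.2 hsurj, finrank_top] at h3
  have h4 : S ≤ LinearMap.ker Φ := by
    intro Z hZ
    rw [LinearMap.mem_ker]
    obtain ⟨e1, e2⟩ := hS Z hZ
    ext i; fin_cases i
    · exact e1
    · exact e2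
  have h5 := Submodule.finrank_mono h4
  have h6 : finrank K (Matrix (Fin 3) (Fin 3) K) = 9 := by
    rw [Module.finrank_matrix]; simp
  have h7 : finrank K (Fin 2 → K) = 2 := by simp
  omega

theorem entry (u : Fin 2 → K) (q p : Fin 3 → K) (w : Fin 2 → K) (k j : Fin 2) :
    (vecMulVec u q * vecMulVec p w) k j = u k * (q ⬝ᵥ p) * w j := by
  simp only [Matrix.mul_apply, vecMulVec_apply, dotProduct, Finset.mul_sum, Finset.sum_mul]
  exact Finset.sum_congr rfl fun i _ => by ring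

theorem entry' (u : Fin 2 → K) (q p : Fin 3 → K) (Z : Matrix (Fin 3) (Fin 3) K) (w : Fin 2 → K)
    (k j : Fin 2) :
    (vecMulVec u q * Z * vecMulVec p w) k j = u k * (q ⬝ᵥ (Z *ᵥ p)) * w j := by
  have h : vecMulVec u q * Z = vecMulVec u (q ᵥ* Z) := by
    ext a b
    simp only [Matrix.mul_apply, vecMulVec_apply, vecMul, dotProduct, Finset.mul_sum]
    exact Finset.sum_congr rfl fun i _ => by ring
  rw [h, entry, dotProduct_mulVec]

theorem vz {m n : ℕ} (u : Fin m → K) : vecMulVec u (0 : Fin n → K) = 0 := by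
  ext; simp [vecMulVec_apply]

theorem zv {m n : ℕ} (u : Fin n → K) : vecMulVec (0 : Fin m → K) u = 0 := by
  ext; simp [vecMulVec_apply]

theorem exs [Infinite K] (q1 q' : Fin 3 → K) (h : q1 ≠ 0) : ∃ s : K, s ≠ 0 ∧ q1 + s • q' ≠ 0 := by
  classical
  by_cases h1 : q1 + q' = 0
  · obtain ⟨s, hs⟩ := Infinite.exists_notMem_finset ({0, 1} : Finset K)
    simp only [Finset.mem_insert, Finset.mem_singleton, not_or] at hs
    refine ⟨s, hs.1, ?_⟩
    have h2 : q' = - q1 := by rw [eq_neg_iff_add_eq_zero, add_comm]; exact h1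
    rw [h2]
    have h3 : q1 + s • (-q1) = (1 - s) • q1 := by rw [sub_smul, one_smul, smul_neg, sub_eq_add_neg]
    rw [h3]
    exact smul_ne_zero (sub_ne_zero.2 (Ne.symm hs.2)) h
  · exact ⟨1, one_ne_zero, by rwa [one_smul]⟩

theorem main : TaskC4 := by
  intro hPol K _ _ N hN w0 u0 hP hQ hPP hQQ
  classical
  obtain ⟨pol0, pol1, -, -⟩ := hPol K N hN
  obtain ⟨x, hx, y, hy, hxy⟩ := hPP
  obtain ⟨v, hv, v', hv', hvv⟩ := hQQ
  have hx0 : x.2.1 ≠ 0 := hxy.ne_zero 0
  have hv0 : v.2.2 ≠ 0 := hvv.ne_zero 0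
  have hw : w0 ≠ 0 := by
    rintro rfl
    obtain ⟨p, hp⟩ := hP x hx
    exact hx0 (by rw [hp, vz])
  have hu : u0 ≠ 0 := by
    rintro rfl
    obtain ⟨p, hp⟩ := hQ v hv
    exact hv0 (by rw [hp, zv])
  obtain ⟨j, hj⟩ := Function.ne_iff.1 hw
  obtain ⟨k, hk⟩ := Function.ne_iff.1 hu
  have hj' : w0 j ≠ 0 := hj
  have hk' : u0 k ≠ 0 := hk
  let pm : Tr K →ₗ[K] (Fin 3 → K) :=
    { toFun := fun x i => (w0 j)⁻¹ * x.2.1 i j
      map_add' := fun x y => by ext i; simp [mul_add]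
      map_smul' := fun c x => by ext i; simp; ring }
  let qm : Tr K →ₗ[K] (Fin 3 → K) :=
    { toFun := fun x i => (u0 k)⁻¹ * x.2.2 k i
      map_add' := fun x y => by ext i; simp [mul_add]
      map_smul' := fun c x => by ext i; simp; ring }
  have hPm : ∀ x ∈ N, x.2.1 = vecMulVec (pm x) w0 := by
    intro x hx
    obtain ⟨p, hp⟩ := hP x hx
    have : pm x = p := by
      funext i
      show (w0 j)⁻¹ * x.2.1 i j = p i
      rw [hp, vecMulVec_apply]; field_simp
    rw [this, hp]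
  have hQm : ∀ x ∈ N, x.2.2 = vecMulVec u0 (qm x) := by
    intro x hx
    obtain ⟨p, hp⟩ := hQ x hx
    have : qm x = p := by
      funext i
      show (u0 k)⁻¹ * x.2.2 k i = p i
      rw [hp, vecMulVec_apply]; field_simp
    rw [this, hp]
  have iso : ∀ x ∈ N, ∀ y ∈ N, qm x ⬝ᵥ pm y + qm y ⬝ᵥ pm x = 0 := by
    intro x hx y hy
    have h := congrFun (congrFun (pol0 x hx y hy) k) j
    rw [hPm x hx, hPm y hy, hQm x hx, hQm y hy, Matrix.add_apply, entry, entry, Matrix.zero_apply] at h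
    have h' : u0 k * w0 j * (qm x ⬝ᵥ pm y + qm y ⬝ᵥ pm x) = 0 := by rw [← h]; ring
    exact (mul_eq_zero.1 h').resolve_left (mul_ne_zero hk' hj')
  have zer : ∀ x ∈ N, ∀ Z, ((Z, 0, 0) : Tr K) ∈ N → qm x ⬝ᵥ (Z *ᵥ pm x) = 0 := by
    intro x hx Z hZ
    have h := congrFun (congrFun (pol1 x hx Z hZ) k) j
    rw [hPm x hx, hQm x hx, entry', Matrix.zero_apply] at h
    have h' : u0 k * w0 j * (qm x ⬝ᵥ (Z *ᵥ pm x)) = 0 := by rw [← h]; ring
    exact (mul_eq_zero.1 h').resolve_left (mul_ne_zero hk' hj')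
  have pind : ∀ a b : K, a • pm x + b • pm y = 0 → a = 0 ∧ b = 0 := by
    intro a b hab
    refine LinearIndependent.pair_iff.1 hxy a b ?_
    rw [hPm x hx, hPm y hy, ← smul_vecMulVec, ← smul_vecMulVec, ← add_vecMulVec, hab, zv]
  have px0 : pm x ≠ 0 := fun h => by
    have := (pind 1 0 (by rw [h]; simp)).1
    exact one_ne_zero this
  have qv0 : qm v ≠ 0 := fun h => hv0 (by rw [hQm v hv, h, vz])
  -- first element
  obtain ⟨z1, hz1, p1, q1⟩ : ∃ z ∈ N, pm z ≠ 0 ∧ qm z ≠ 0 := by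
    by_cases h : pm v = 0
    · obtain ⟨s, hs, h2⟩ := exs (qm v) (qm x) qv0
      refine ⟨v + s • x, N.add_mem hv (N.smul_mem s hx), ?_, ?_⟩
      · rw [map_add, map_smul, h, zero_add]; exact smul_ne_zero hs px0
      · rw [map_add, map_smul]; exact h2
    · exact ⟨v, hv, h, qv0⟩
  obtain ⟨x', hx', hind⟩ : ∃ x' ∈ N, LinearIndependent K ![pm z1, pm x'] := by
    by_contra hcon
    push Not at hcon
    have h1 := hcon x hx
    have h2 := hcon y hy
    rw [LinearIndependent.pair_iff' p1] at h1 h2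
    push Not at h1 h2
    obtain ⟨a, ha⟩ := h1
    obtain ⟨b, hb⟩ := h2
    have := pind b (-a) (by rw [← ha, ← hb, smul_smul, smul_smul, ← add_smul]; ring_nf; simp)
    have ha0 : a = 0 := neg_eq_zero.1 this.2
    rw [ha0, zero_smul] at ha
    exact px0 ha.symm
  obtain ⟨s, hs, hq2⟩ := exs (qm z1) (qm x') q1
  have hz2 : z1 + s • x' ∈ N := N.add_mem hz1 (N.smul_mem s hx')
  have hind2 : LinearIndependent K ![pm z1, pm (z1 + s • x')] := by
    rw [LinearIndependent.pair_iff' p1] at hind ⊢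
    intro a ha
    apply hind (s⁻¹ * (a - 1))
    rw [map_add, map_smul] at ha
    have h3 : s • pm x' = (a - 1) • pm z1 := by rw [sub_smul, one_smul, ha]; simp
    rw [mul_smul, ← h3, smul_smul, inv_mul_cancel₀ hs, one_smul]
  let S : Submodule K (Matrix (Fin 3) (Fin 3) K) :=
    N.comap (LinearMap.inl K (Matrix (Fin 3) (Fin 3) K)
      (Matrix (Fin 3) (Fin 2) K × Matrix (Fin 2) (Fin 3) K))
  have hS : finrank K S ≤ 7 := by
    refine ker_le (pm z1) (pm (z1 + s • x')) (qm z1) (qm (z1 + s • x')) hind2 q1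
      (by rw [map_add, map_smul]; exact hq2) S fun Z hZ => ⟨zer _ hz1 Z hZ, zer _ hz2 Z hZ⟩
  let F : N →ₗ[K] (Fin 3 → K) × (Fin 3 → K) := (pm.prod qm) ∘ₗ N.subtype
  have hF := LinearMap.finrank_range_add_finrank_ker F
  rw [hN.dim] at hF
  have hR : finrank K (LinearMap.range F) ≤ 3 := by
    refine iso_le _ ?_
    rintro _ ⟨a, rfl⟩ _ ⟨b, rfl⟩
    exact iso a.1 a.2 b.1 b.2
  have hKer : finrank K (LinearMap.ker F) ≤ finrank K S := by
    have hmem : ∀ a : LinearMap.ker F, ((LinearMap.fst K (Matrix (Fin 3) (Fin 3) K)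
      (Matrix (Fin 3) (Fin 2) K × Matrix (Fin 2) (Fin 3) K)) ∘ₗ N.subtype ∘ₗ
        (LinearMap.ker F).subtype) a ∈ S := by
      intro a
      have h1 : F a.1 = 0 := a.2
      have h2 : pm a.1.1 = 0 := congrArg Prod.fst h1
      have h3 : qm a.1.1 = 0 := congrArg Prod.snd h1
      have h4 : a.1.1.2.1 = 0 := by rw [hPm _ a.1.2, h2, zv]
      have h5 : a.1.1.2.2 = 0 := by rw [hQm _ a.1.2, h3, vz]
      show ((a.1.1.1, 0) : Tr K) ∈ N
      have h6 : ((a.1.1.1, 0) : Tr K) = a.1.1 := by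
        ext1
        · rfl
        · ext1
          · exact h4.symm
          · exact h5.symm
      rw [h6]
      exact a.1.2
    refine LinearMap.finrank_le_finrank_of_injective (f := LinearMap.codRestrict S _ hmem) ?_
    intro a b hab
    have h0 : a.1.1.1 = b.1.1.1 := congrArg Subtype.val hab
    have h1 : ∀ a : LinearMap.ker F, a.1.1.2 = 0 := by
      intro a
      have h1 : F a.1 = 0 := a.2
      have h2 : pm a.1.1 = 0 := congrArg Prod.fst h1
      have h3 : qm a.1.1 = 0 := congrArg Prod.snd h1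
      have h4 : a.1.1.2.1 = 0 := by rw [hPm _ a.1.2, h2, zv]
      have h5 : a.1.1.2.2 = 0 := by rw [hQm _ a.1.2, h3, vz]
      ext1
      · exact h4
      · exact h5
    apply Subtype.ext
    apply Subtype.ext
    exact Prod.ext h0 ((h1 a).trans (h1 b).symm)
  omega

end H321.FANU.TaskC4
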