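import Pool.Agent.Q321.FANU.Stmts

set_option autoImplicit false

namespace H321.FANU.TaskCoeff

open Matrix H321.FANU Polynomial

variable {K : Type*} [Field K]

/-- the Schur complement -/
theorem schur (A : Matrix (Fin 3) (Fin 3) K) (P : Matrix (Fin 3) (Fin 2) K)
    (Q : Matrix (Fin 2) (Fin 3) K) (D : Matrix (Fin 2) (Fin 2) K) {t : K} (ht : t ≠ 0)
    (hA : A.det ≠ 0) (h : (fromBlocks A (t • P) (t • Q) (t • D)).rank ≤ 3) :
    A.det • D = t • (Q * A.adjugate * P) := by
  set big := fromBlocks A (t • P) (t • Q) (t • D) with hbig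
  have hrn := LinearMap.finrank_range_add_finrank_ker (mulVecLin big)
  have hrank : Module.finrank K (LinearMap.range (mulVecLin big)) ≤ 3 := h
  have hcard : Module.finrank K (Fin 3 ⊕ Fin 2 → K) = 5 := by simp
  rw [hcard] at hrn
  let π : LinearMap.ker (mulVecLin big) →ₗ[K] (Fin 2 → K) :=
    (LinearMap.funLeft K K (Sum.inr : Fin 2 → Fin 3 ⊕ Fin 2)).domRestrict _
  have hmem : ∀ z : LinearMap.ker (mulVecLin big),
      A *ᵥ (z.1 ∘ Sum.inl) + (t • P) *ᵥ (z.1 ∘ Sum.inr) = 0 ∧
      (t • Q) *ᵥ (z.1 ∘ Sum.inl) + (t • D) *ᵥ (z.1 ∘ Sum.inr) = 0 := by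
    intro z
    have h1 : fromBlocks A (t • P) (t • Q) (t • D) *ᵥ z.1 = 0 := z.2
    rw [fromBlocks_mulVec] at h1
    constructor
    · ext i
      exact congrFun h1 (Sum.inl i)
    · ext i
      exact congrFun h1 (Sum.inr i)
  have hπ : ∀ z, π z = z.1 ∘ Sum.inr := fun z => rfl
  have hinj : Function.Injective π := by
    rw [injective_iff_map_eq_zero]
    intro z hz
    rw [hπ] at hz
    have h1 := (hmem z).1
    rw [hz, mulVec_zero, add_zero] at h1
    have h2 := eq_zero_of_mulVec_eq_zero hA h1
    refine Subtype.ext (funext fun s => ?_)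
    rcases s with s | s
    · exact congrFun h2 s
    · exact congrFun hz s
  have h2 : Module.finrank K (LinearMap.ker (mulVecLin big)) = Module.finrank K (Fin 2 → K) := by
    have := LinearMap.finrank_le_finrank_of_injective hinj
    rw [Module.finrank_fin_fun] at this ⊢
    omega
  have hsurj := (LinearMap.injective_iff_surjective_of_finrank_eq_finrank h2).1 hinj
  have key : ∀ y : Fin 2 → K, (A.det • D) *ᵥ y = (t • (Q * A.adjugate * P)) *ᵥ y := by
    intro y
    obtain ⟨z, hz⟩ := hsurj y
    rw [hπ] at hz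
    obtain ⟨e1, e2⟩ := hmem z
    rw [hz] at e1 e2
    set x := z.1 ∘ Sum.inl with hx
    have e3 : A.det • x = - (t • (A.adjugate *ᵥ (P *ᵥ y))) := by
      have h3 := congrArg (fun v => A.adjugate *ᵥ v) e1
      simp only [mulVec_add, mulVec_mulVec, adjugate_mul, mulVec_zero, smul_mulVec, one_mulVec,
        mulVec_smul] at h3
      rw [smul_mulVec, mulVec_mulVec, ← eq_neg_iff_add_eq_zero] at *
      simpa [mulVec_mulVec] using h3
    have e4 : D *ᵥ y = - (Q *ᵥ x) := by
      rw [smul_mulVec, smul_mulVec, ← smul_add] at e2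
      have h4 := (smul_eq_zero.1 e2).resolve_left ht
      exact eq_neg_of_add_eq_zero_right h4
    rw [smul_mulVec, e4, smul_neg, ← mulVec_smul, e3, mulVec_neg, neg_neg, mulVec_smul,
      smul_mulVec, mulVec_mulVec, mulVec_mulVec]
  ext i j
  have := congrFun (key (Pi.single j 1)) i
  simpa using this

theorem evC {m n : Type*} (t : K) (N : Matrix m n K) :
    (N.map C).map (evalRingHom t) = N := by
  ext i j; simp

theorem evA (t : K) (M : Matrix (Fin 3) (Fin 3) K) :
    (1 + (X : K[X]) • M.map C).map (evalRingHom t) = 1 + t • M := by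
  ext i j
  rw [Matrix.map_apply, Matrix.add_apply, Matrix.add_apply, Matrix.smul_apply, Matrix.smul_apply,
    Matrix.map_apply, Matrix.one_apply, Matrix.one_apply]
  split_ifs
  · simp only [smul_eq_mul, map_add, map_mul, map_one, coe_evalRingHom, eval_X, eval_C]
  · simp only [smul_eq_mul, map_add, map_mul, map_zero, coe_evalRingHom, eval_X, eval_C]

theorem evAdj (t : K) (M : Matrix (Fin 3) (Fin 3) K) :
    (adjugate (1 + (X : K[X]) • M.map C)).map (evalRingHom t) = adjugate (1 + t • M) := by
  rw [← evA t M]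
  exact RingHom.map_adjugate (evalRingHom t) _

theorem evDet (t : K) (M : Matrix (Fin 3) (Fin 3) K) :
    (evalRingHom t) (det (1 + (X : K[X]) • M.map C)) = det (1 + t • M) := by
  rw [← evA t M]
  exact RingHom.map_det (evalRingHom t) _

theorem evQAP (t : K) (M : Matrix (Fin 3) (Fin 3) K) (P : Matrix (Fin 3) (Fin 2) K)
    (Q : Matrix (Fin 2) (Fin 3) K) :
    (Q.map C * adjugate (1 + (X : K[X]) • M.map C) * P.map C).map (evalRingHom t) =
      Q * adjugate (1 + t • M) * P := by
  rw [Matrix.map_mul, Matrix.map_mul, evC, evC, evAdj]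

/-- step -/
theorem step (M : Matrix (Fin 3) (Fin 3) K) (Q : Matrix (Fin 2) (Fin 3) K)
    (P' : Matrix (Fin 3) (Fin 2) K)
    (h : Q.map C * adjugate (1 + (X : K[X]) • M.map C) * P'.map C = 0) :
    Q * P' = 0 ∧ Q.map C * adjugate (1 + (X : K[X]) • M.map C) * (M * P').map C = 0 := by
  have hQP : Q * P' = 0 := by
    have h1 := evQAP 0 M P' Q
    rw [h] at h1
    simpa using h1.symm
  refine ⟨hQP, ?_⟩
  have h2 : Q.map C * adjugate (1 + (X : K[X]) • M.map C) *
      ((1 + (X : K[X]) • M.map C) * P'.map C) = 0 := by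
    rw [← Matrix.mul_assoc, Matrix.mul_assoc (Q.map C), adjugate_mul, Matrix.mul_smul,
      Matrix.mul_one, Matrix.smul_mul, ← Matrix.map_mul, hQP]
    simp
  rw [Matrix.add_mul, Matrix.one_mul, Matrix.mul_add, h, zero_add, Matrix.smul_mul,
    Matrix.mul_smul, ← Matrix.map_mul] at h2
  exact (smul_eq_zero.1 h2).resolve_left X_ne_zero

theorem main : TaskCoeff := by
  intro K _ _ M P Q D h
  have hdet0 : det (1 + (X : K[X]) • M.map C) ≠ 0 := by
    intro h0
    have := evDet (0 : K) M
    rw [h0] at this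
    simp at this
  have hE : det (1 + (X : K[X]) • M.map C) • D.map C -
      (X : K[X]) • (Q.map C * adjugate (1 + (X : K[X]) • M.map C) * P.map C) = 0 := by
    ext1 i j
    have hz : X * det (1 + (X : K[X]) • M.map C) *
        ((det (1 + (X : K[X]) • M.map C) • D.map C -
        (X : K[X]) • (Q.map C * adjugate (1 + (X : K[X]) • M.map C) * P.map C) :
          Matrix (Fin 2) (Fin 2) K[X]) i j) = 0 := by
      refine Polynomial.funext fun t => ?_
      rw [← coe_evalRingHom, map_mul, map_mul, evDet, map_zero]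
      by_cases ht : t = 0
      · simp [ht]
      by_cases hd : det (1 + t • M) = 0
      · simp [hd]
      have hs := schur (1 + t • M) P Q D ht hd (h t)
      have h3 : (evalRingHom t) ((det (1 + (X : K[X]) • M.map C) • D.map C -
        (X : K[X]) • (Q.map C * adjugate (1 + (X : K[X]) • M.map C) * P.map C) :
          Matrix (Fin 2) (Fin 2) K[X]) i j) =
        (det (1 + t • M) • D - t • (Q * adjugate (1 + t • M) * P) :
          Matrix (Fin 2) (Fin 2) K) i j := by
        rw [← evQAP, ← evDet, Matrix.sub_apply, Matrix.sub_apply, map_sub, Matrix.smul_apply,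
          Matrix.smul_apply, Matrix.smul_apply, Matrix.smul_apply, smul_eq_mul, smul_eq_mul,
          smul_eq_mul, smul_eq_mul, map_mul, map_mul, Matrix.map_apply, Matrix.map_apply]
        simp
      rw [h3, hs, sub_self]
      simp
    rcases mul_eq_zero.1 hz with h4 | h4
    · exact absurd h4 (mul_ne_zero X_ne_zero hdet0)
    · exact h4
  have hD : D = 0 := by
    have h5 := congrArg (fun Z => Z.map (evalRingHom (0 : K))) (sub_eq_zero.1 hE)
    ext i j
    have h6 := congrFun (congrFun h5 i) j
    simp only [Matrix.map_apply, Matrix.smul_apply, smul_eq_mul, map_mul, evDet] at h6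
    simpa using h6
  subst hD
  have h0 : Q.map C * adjugate (1 + (X : K[X]) • M.map C) * P.map C = 0 := by
    have h7 : (X : K[X]) • (Q.map C * adjugate (1 + (X : K[X]) • M.map C) * P.map C) = 0 := by
      simpa using hE
    exact (smul_eq_zero.1 h7).resolve_left X_ne_zero
  have s0 := step M Q P h0
  have s1 := step M Q (M * P) s0.2
  have s2 := step M Q (M * (M * P)) s1.2
  refine ⟨rfl, s0.1, ?_, ?_⟩
  · rw [Matrix.mul_assoc]; exact s1.1
  · rw [Matrix.mul_assoc, Matrix.mul_assoc]; exact s2.1

end H321.FANU.TaskCoeff
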