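import Pool.Agent.Q321.FANU.Stmts

/-! # `TaskEx` -/

set_option autoImplicit false

namespace H321.FANU.TaskEx

open Matrix H321.FANU

/-- the matrices with entries at the places `5 i + j < 11` -/
def fM (K : Type*) [Field K] : (Fin 11 → K) →ₗ[K] M5 K where
  toFun c := fun i j => if h : 5 * i.1 + j.1 < 11 then c ⟨5 * i.1 + j.1, h⟩ else 0
  map_add' c d := by
    funext i j
    by_cases h : 5 * i.1 + j.1 < 11 <;> simp [h]
  map_smul' a c := by
    funext i j
    by_cases h : 5 * i.1 + j.1 < 11 <;> simp [h]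

/-- the vectors with the last two entries zero -/
def gM (K : Type*) [Field K] : (Fin 3 → K) →ₗ[K] (Fin 5 → K) where
  toFun c := fun i => if h : i.1 < 3 then c ⟨i.1, h⟩ else 0
  map_add' c d := by
    funext i
    by_cases h : i.1 < 3 <;> simp [h]
  map_smul' a c := by
    funext i
    by_cases h : i.1 < 3 <;> simp [h]

theorem fM_inj (K : Type*) [Field K] : Function.Injective (fM K) := by
  intro c d h
  funext k
  have hk := k.2
  have h1 := congrFun (congrFun h ⟨k.1 / 5, by omega⟩) ⟨k.1 % 5, by omega⟩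
  have e : 5 * (k.1 / 5) + k.1 % 5 = k.1 := Nat.div_add_mod _ _
  have h2 : ∀ c : Fin 11 → K, fM K c ⟨k.1 / 5, by omega⟩ ⟨k.1 % 5, by omega⟩ = c k := by
    intro c
    change (if h : 5 * (k.1 / 5) + k.1 % 5 < 11 then c ⟨5 * (k.1 / 5) + k.1 % 5, h⟩ else 0) = c k
    rw [dif_pos (by omega)]
    congr 1
    exact Fin.ext e
  rw [h2, h2] at h1
  exact h1

theorem gM_inj (K : Type*) [Field K] : Function.Injective (gM K) := by
  intro c d h
  funext k
  have hk := k.2
  have h1 := congrFun h ⟨k.1, by omega⟩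
  have h2 : ∀ c : Fin 3 → K, gM K c ⟨k.1, by omega⟩ = c k := by
    intro c
    change (if h : k.1 < 3 then c ⟨k.1, h⟩ else 0) = c k
    rw [dif_pos hk]
  rw [h2, h2] at h1
  exact h1

theorem mem_W (K : Type*) [Field K] (c : Fin 11 → K) (v : Fin 5 → K) :
    (fM K c) *ᵥ v ∈ LinearMap.range (gM K) := by
  refine ⟨fun i => ((fM K c) *ᵥ v) ⟨i.1, by omega⟩, ?_⟩
  funext i
  change (if h : i.1 < 3 then ((fM K c) *ᵥ v) ⟨i.1, by omega⟩ else 0) = _
  by_cases h : i.1 < 3
  · rw [dif_pos h]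
  · rw [dif_neg h]
    symm
    change ∑ j, (fM K c) i j * v j = 0
    refine Finset.sum_eq_zero fun j _ => ?_
    have h1 : (fM K c) i j = 0 := by
      change (if h : 5 * i.1 + j.1 < 11 then c ⟨5 * i.1 + j.1, h⟩ else 0) = 0
      rw [dif_neg (by omega)]
    rw [h1, zero_mul]

theorem main : TaskEx := by
  intro K _
  have hW : Module.finrank K (LinearMap.range (gM K)) = 3 := by
    rw [LinearMap.finrank_range_of_inj (gM_inj K), Module.finrank_fin_fun]
  refine ⟨LinearMap.range (fM K), ⟨?_, ?_⟩, ⊤, LinearMap.range (gM K), ?_, hW, ?_⟩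
  · rw [LinearMap.finrank_range_of_inj (fM_inj K), Module.finrank_fin_fun]
  · rintro X ⟨c, rfl⟩
    rw [← hW]
    refine Submodule.finrank_mono ?_
    rintro _ ⟨v, rfl⟩
    exact mem_W K c v
  · rw [finrank_top, Module.finrank_fin_fun]
  · rintro X ⟨c, rfl⟩ v _
    exact mem_W K c v

end H321.FANU.TaskEx
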