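import Pool.Agent.Q321.FANU.Stmts

set_option autoImplicit false

namespace H321.FANU.TaskNormal

open Matrix H321.FANU

theorem aux {K : Type*} [Field K] (A : M5 K) (r s : ℕ) (hr : r = 3) (hs : s = 2) (e : Fin 5 ≃ Fin r ⊕ Fin s)
    (V U : M5 K) (h : V * A * U = (fromBlocks (1 : Matrix (Fin r) (Fin r) K) 0 0
      (0 : Matrix (Fin s) (Fin s) K)).submatrix e e) (hV : IsUnit V) (hU : IsUnit U) :
    ∃ R S : M5 K, IsUnit R ∧ IsUnit S ∧
    R * A * S = (fromBlocks (1 : Matrix (Fin 3) (Fin 3) K) 0 0 (0 : Matrix (Fin 2) (Fin 2) K)).submatrix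
      (finSumFinEquiv (m := 3) (n := 2)).symm (finSumFinEquiv (m := 3) (n := 2)).symm := by
  subst hr hs
  obtain ⟨uV, rfl⟩ := hV
  obtain ⟨uU, rfl⟩ := hU
  set f : Fin 5 ≃ Fin 3 ⊕ Fin 2 := (finSumFinEquiv (m := 3) (n := 2)).symm with hf
  set π : Fin 5 ≃ Fin 5 := f.trans e.symm with hπ
  refine ⟨(uV : M5 K).submatrix π id, (uU : M5 K).submatrix id π, ?_, ?_, ?_⟩
  · refine (Matrix.isUnit_iff_isUnit_det _).2
      (Matrix.isUnit_det_of_right_inverse (B := (↑uV⁻¹ : M5 K).submatrix id π) ?_)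
    rw [← submatrix_mul _ _ _ _ _ Function.bijective_id, uV.mul_inv]
    simp
  · refine (Matrix.isUnit_iff_isUnit_det _).2
      (Matrix.isUnit_det_of_left_inverse (B := (↑uU⁻¹ : M5 K).submatrix π id) ?_)
    rw [← submatrix_mul _ _ _ _ _ Function.bijective_id, uU.inv_mul]
    simp
  · have h1 : (uV : M5 K).submatrix π id * A * (uU : M5 K).submatrix id π =
        ((uV : M5 K) * A * (uU : M5 K)).submatrix π π := by
      rw [submatrix_mul _ _ _ _ _ Function.bijective_id, submatrix_mul _ _ _ _ _ Function.bijective_id]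
      simp
    rw [h1, h, submatrix_submatrix]
    congr 1 <;> · funext i; simp [hπ]

theorem main : TaskNormal := by
  intro K _ A hA
  obtain ⟨V, U, e, hV, hU, h⟩ := Matrix.exists_rank_normal_form A
  exact aux A A.rank (Fintype.card (Fin 5) - A.rank) hA (by rw [hA]; simp) e V U h hV hU

end H321.FANU.TaskNormal
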