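import Pool.Agent.Q321.FANU.Stmts

set_option autoImplicit false

open Matrix H321.FANU

namespace H321.FANU.TaskPol

theorem main : TaskPol := by
  classical
  intro K _ _ N hN
  have h0 : ∀ x ∈ N, ∀ y ∈ N, x.2.2 * y.2.1 + y.2.2 * x.2.1 = 0 := by
    intro x hx y hy
    have h := hN.c0 (x + y) (N.add_mem hx hy)
    have hx0 := hN.c0 x hx
    have hy0 := hN.c0 y hy
    simp only [Prod.snd_add, Prod.fst_add, Matrix.add_mul, Matrix.mul_add] at h
    rw [hx0, hy0, zero_add, add_zero] at h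
    rw [add_comm] at h
    exact h
  have h1 : ∀ x ∈ N, ∀ Z, ((Z, 0, 0) : Tr K) ∈ N → x.2.2 * Z * x.2.1 = 0 := by
    intro x hx Z hZ
    have h := hN.c1 (x + (Z, 0, 0)) (N.add_mem hx hZ)
    have hx1 := hN.c1 x hx
    simp only [Prod.snd_add, Prod.fst_add, Matrix.add_mul, Matrix.mul_add, add_zero, zero_add] at h
    rw [hx1, zero_add] at h
    exact h
  have h2 : ∀ x ∈ N, ∀ Z, ((Z, 0, 0) : Tr K) ∈ N → x.2.2 * (x.1 * Z + Z * x.1) * x.2.1 = 0 := by
    intro x hx Z hZ
    have hs : ∀ s : K, s • (x.2.2 * (x.1 * Z + Z * x.1) * x.2.1) +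
        (s * s) • (x.2.2 * (Z * Z) * x.2.1) = 0 := by
      intro s
      have h := hN.c2 (x + s • (Z, 0, 0)) (N.add_mem hx (N.smul_mem s hZ))
      have hx2 := hN.c2 x hx
      simp only [Prod.snd_add, Prod.fst_add, Prod.smul_fst, Prod.smul_snd, smul_zero, add_zero] at h
      have e : x.2.2 * ((x.1 + s • Z) * (x.1 + s • Z)) * x.2.1 =
          x.2.2 * (x.1 * x.1) * x.2.1 + (s • (x.2.2 * (x.1 * Z + Z * x.1) * x.2.1) +
          (s * s) • (x.2.2 * (Z * Z) * x.2.1)) := by
        simp only [Matrix.add_mul, Matrix.mul_add, Matrix.smul_mul, Matrix.mul_smul, smul_add,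
          smul_smul]
        abel
      rw [e, hx2, zero_add] at h
      exact h
    obtain ⟨t, ht⟩ : ∃ t : K, t ∉ ({0, 1} : Finset K) := Infinite.exists_notMem_finset _
    simp only [Finset.mem_insert, Finset.mem_singleton, not_or] at ht
    have e1 := hs 1
    have e2 := hs t
    rw [one_smul, mul_one, one_smul] at e1
    have e3 : x.2.2 * (x.1 * Z + Z * x.1) * x.2.1 = -(x.2.2 * (Z * Z) * x.2.1) :=
      eq_neg_of_add_eq_zero_left e1
    rw [e3, smul_neg, neg_add_eq_sub, ← sub_smul] at e2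
    rcases smul_eq_zero.1 e2 with h | h
    · exfalso
      have : t * (t - 1) = 0 := by linear_combination h
      rcases mul_eq_zero.1 this with h' | h'
      · exact ht.1 h'
      · exact ht.2 (sub_eq_zero.1 h')
    · rw [e3, h, neg_zero]
  refine ⟨h0, h1, h2, ?_⟩
  intro x hx y hy Z hZ
  have h := h1 (x + y) (N.add_mem hx hy) Z hZ
  have hx1 := h1 x hx Z hZ
  have hy1 := h1 y hy Z hZ
  simp only [Prod.snd_add, Prod.fst_add, Matrix.add_mul, Matrix.mul_add] at h
  rw [hx1, hy1, zero_add, add_zero] at h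
  rw [add_comm] at h
  exact h

end H321.FANU.TaskPol
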