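import Pool.Agent.Q321.FANU.Stmts

set_option autoImplicit false

namespace H321.FANU.TaskTr

open Matrix H321.FANU

lemma trT_apply (K : Type*) [Field K] (x : Tr K) : trT K x = (x.1ᵀ, x.2.2ᵀ, x.2.1ᵀ) := rfl

lemma trT_inj (K : Type*) [Field K] : Function.Injective (trT K) := by
  intro x y h
  rw [trT_apply, trT_apply] at h
  obtain ⟨h1, h2⟩ := Prod.mk.inj h
  obtain ⟨h2, h3⟩ := Prod.mk.inj h2
  exact Prod.ext (transpose_injective h1) (Prod.ext (transpose_injective h3) (transpose_injective h2))

theorem main : TaskTr := by
  intro K _ N hN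
  constructor
  · constructor
    · exact ⟨(1, 0, 0), hN.one, by simp [trT_apply]⟩
    · rw [← hN.dim]
      exact (Submodule.equivMapOfInjective (trT K) (trT_inj K) N).finrank_eq.symm
    · rintro _ ⟨x, hx, rfl⟩
      rw [trT_apply]
      have := congrArg Matrix.transpose (hN.c0 x hx)
      simpa [transpose_mul] using this
    · rintro _ ⟨x, hx, rfl⟩
      rw [trT_apply]
      have := congrArg Matrix.transpose (hN.c1 x hx)
      simpa [transpose_mul, Matrix.mul_assoc] using this
    · rintro _ ⟨x, hx, rfl⟩
      rw [trT_apply]
      have := congrArg Matrix.transpose (hN.c2 x hx)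
      simpa [transpose_mul, Matrix.mul_assoc] using this
  · rintro (h | h | ⟨W, h1, h2, h3⟩)
    · refine Or.inr (Or.inl fun x hx => ?_)
      have := h _ ⟨x, hx, rfl⟩
      rw [trT_apply] at this
      simpa using congrArg Matrix.transpose this
    · refine Or.inl fun x hx => ?_
      have := h _ ⟨x, hx, rfl⟩
      rw [trT_apply] at this
      simpa using congrArg Matrix.transpose this
    · refine Or.inr (Or.inr ⟨{ carrier := {v | ∀ w ∈ W, w ⬝ᵥ v = 0}
                               add_mem' := ?_, zero_mem' := ?_, smul_mem' := ?_ }, ?_, ?_, ?_⟩)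
      · intro a b ha hb w hw
        rw [dotProduct_add, ha w hw, hb w hw, add_zero]
      · intro w _
        simp
      · intro c a ha w hw
        rw [dotProduct_smul, ha w hw, smul_zero]
      · intro x hx w' w hw
        have := h2 _ ⟨x, hx, rfl⟩ w hw
        rw [trT_apply] at this
        rw [dotProduct_mulVec, ← mulVec_transpose]
        change (x.2.1ᵀ *ᵥ w) ⬝ᵥ w' = 0
        have h' : x.2.1ᵀ *ᵥ w = 0 := this
        rw [h', zero_dotProduct]
      · intro x hx v hv
        funext i
        have := h1 _ ⟨x, hx, rfl⟩ (Pi.single i 1)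
        rw [trT_apply] at this
        have h' : x.2.2 i ∈ W := by
          have e : x.2.2ᵀ *ᵥ (Pi.single i 1) = x.2.2 i := by
            rw [mulVec_single_one]
            rfl
          rw [← e]
          exact this
        exact hv _ h'
      · intro x hx v hv w hw
        have := h3 _ ⟨x, hx, rfl⟩ w hw
        rw [trT_apply] at this
        rw [dotProduct_mulVec, ← mulVec_transpose]
        exact hv _ this

end H321.FANU.TaskTr
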