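import Pool.Agent.Q321.FANU.Stmts

set_option autoImplicit false

namespace H321.FANU.TaskTrU

open Matrix H321.FANU

/-- the orthogonal complement for the dot product -/
def perp {K : Type*} [Field K] (W : Submodule K (Fin 5 → K)) : Submodule K (Fin 5 → K) where
  carrier := {y | ∀ w ∈ W, w ⬝ᵥ y = 0}
  zero_mem' := fun w _ => dotProduct_zero w
  add_mem' := fun {a b} ha hb w hw => by rw [dotProduct_add, ha w hw, hb w hw, add_zero]
  smul_mem' := fun c a ha w hw => by rw [dotProduct_smul, ha w hw, smul_zero]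

lemma finrank_perp {K : Type*} [Field K] (W : Submodule K (Fin 5 → K)) :
    Module.finrank K (perp W) = 5 - Module.finrank K W := by
  have hB : (Matrix.toBilin' (1 : Matrix (Fin 5) (Fin 5) K)).Nondegenerate :=
    LinearMap.BilinForm.nondegenerate_toBilin'_of_det_ne_zero' _ (by simp)
  have hap : ∀ x y : Fin 5 → K, Matrix.toBilin' (1 : Matrix (Fin 5) (Fin 5) K) x y = x ⬝ᵥ y := by
    intro x y
    rw [Matrix.toBilin'_apply', Matrix.one_mulVec]
  have hS : (Matrix.toBilin' (1 : Matrix (Fin 5) (Fin 5) K)).IsRefl := by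
    intro x y h
    rw [hap] at h ⊢
    rw [dotProduct_comm]
    exact h
  have h1 := LinearMap.BilinForm.finrank_orthogonal hB W
  rw [Module.finrank_fin_fun] at h1
  rw [← h1]
  have h2 : perp W = (Matrix.toBilin' (1 : Matrix (Fin 5) (Fin 5) K)).orthogonal W := by
    ext y
    rw [LinearMap.BilinForm.mem_orthogonal_iff]
    constructor
    · intro h w hw
      show Matrix.toBilin' (1 : Matrix (Fin 5) (Fin 5) K) w y = 0
      rw [hap]
      exact h w hw
    · intro h w hw
      have := h w hw
      rw [← hap]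
      exact this
  rw [h2]

lemma mem_tU {K : Type*} [Field K] (U : Submodule K (M5 K)) (X : M5 K) : X ∈ tU K U ↔ Xᵀ ∈ U := by
  unfold tU
  rw [Submodule.mem_map]
  constructor
  · rintro ⟨Y, hY, rfl⟩
    exact hY
  · intro h
    exact ⟨Xᵀ, h, rfl⟩

theorem main : TaskTrU := by
  intro K _ U
  refine ⟨?_, ?_, ?_⟩
  · rintro a c _ _ ⟨V, W, hV, hW, h⟩
    refine ⟨perp W, perp V, by rw [finrank_perp, hW], by rw [finrank_perp, hV], ?_⟩
    intro X hX y hy v hv
    rw [mem_tU] at hX
    have h1 := h _ hX v hv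
    have h2 := hy _ h1
    rw [Matrix.dotProduct_mulVec, ← Matrix.mulVec_transpose]
    exact h2
  · ext X
    rw [mem_tU, mem_tU, Matrix.transpose_transpose]
  · rintro ⟨h1, h2⟩
    refine ⟨?_, ?_⟩
    · unfold tU
      rw [← h1]
      exact LinearEquiv.finrank_map_eq _ _
    · intro X hX
      rw [mem_tU] at hX
      have := h2 _ hX
      rwa [Matrix.rank_transpose] at this

end H321.FANU.TaskTrU
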