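import Pool.Agent.Q321.FANU.Stmts

set_option autoImplicit false

open Matrix H321.FANU

namespace H321.FANU.TaskTwo

variable {K : Type*} [Field K]

theorem left_inv (P : Matrix (Fin 3) (Fin 2) K) (h : P.rank = 2) :
    ∃ L : Matrix (Fin 2) (Fin 3) K, L * P = 1 := by
  have hk : LinearMap.ker P.mulVecLin = ⊥ := by
    have h1 := LinearMap.finrank_range_add_finrank_ker P.mulVecLin
    have h2 : Module.finrank K (LinearMap.range P.mulVecLin) = 2 := h
    rw [h2, Module.finrank_fin_fun] at h1
    exact Submodule.finrank_eq_zero.1 (by omega)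
  obtain ⟨g, hg⟩ := LinearMap.exists_leftInverse_of_injective P.mulVecLin hk
  refine ⟨LinearMap.toMatrix' g, ?_⟩
  have h3 : LinearMap.toMatrix' (g ∘ₗ P.mulVecLin) = LinearMap.toMatrix' LinearMap.id := by rw [hg]
  rw [LinearMap.toMatrix'_comp, LinearMap.toMatrix'_id] at h3
  have h4 : LinearMap.toMatrix' P.mulVecLin = P := LinearMap.toMatrix'_toLin' P
  rwa [h4] at h3

theorem rank_of_det {E : Matrix (Fin 2) (Fin 2) K} (h : E.det ≠ 0) : E.rank = 2 := by
  have := Matrix.rank_of_isUnit E ((Matrix.isUnit_iff_isUnit_det E).2 (isUnit_iff_ne_zero.2 h))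
  simpa using this

theorem main : TaskTwo := by
  classical
  intro K _ _ N hN ⟨y, hy, hy2⟩ x hx
  by_contra hcon
  have hPx : x.2.1.rank = 2 := by
    have := Matrix.rank_le_width x.2.1
    omega
  obtain ⟨L, hL⟩ := left_inv x.2.1 hPx
  obtain ⟨R', hR'⟩ := left_inv y.2.2ᵀ (by rw [Matrix.rank_transpose]; exact hy2)
  have hR : y.2.2 * R'ᵀ = 1 := by
    have := congrArg Matrix.transpose hR'
    rwa [Matrix.transpose_mul, Matrix.transpose_transpose, Matrix.transpose_one] at this
  set R := R'ᵀ with hRdef
  -- the two polynomials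
  set A := L * y.2.1 with hA
  set B := x.2.2 * R with hB
  let F : Polynomial K := 1 + Polynomial.C (A 0 0 + A 1 1) * Polynomial.X +
    Polynomial.C (A.det) * Polynomial.X ^ 2
  let G : Polynomial K := Polynomial.X ^ 2 + Polynomial.C (B 0 0 + B 1 1) * Polynomial.X +
    Polynomial.C (B.det)
  have hF : F ≠ 0 := by
    intro h
    have := congrArg (Polynomial.eval 0) h
    simp [F] at this
  have hG : G ≠ 0 := by
    intro h
    have := congrArg (fun p => Polynomial.coeff p 2) h
    simp [G, Polynomial.coeff_X, Polynomial.coeff_C] at this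
  obtain ⟨s, hs⟩ := Infinite.exists_notMem_finset (F * G).roots.toFinset
  have hs' : Polynomial.eval s F ≠ 0 ∧ Polynomial.eval s G ≠ 0 := by
    rw [Multiset.mem_toFinset, Polynomial.mem_roots (mul_ne_zero hF hG), Polynomial.IsRoot.def,
      Polynomial.eval_mul, mul_eq_zero, not_or] at hs
    exact hs
  have hz := hN.c0 (x + s • y) (N.add_mem hx (N.smul_mem s hy))
  have e1 : (x + s • y).2.2 = x.2.2 + s • y.2.2 := rfl
  have e2 : (x + s • y).2.1 = x.2.1 + s • y.2.1 := rfl
  rw [e1, e2] at hz
  have hr := Matrix.rank_add_rank_le_card_of_mul_eq_zero hz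
  have h1 : (L * (x.2.1 + s • y.2.1)).rank = 2 := by
    apply rank_of_det
    rw [Matrix.mul_add, hL, Matrix.mul_smul, ← hA, Matrix.det_fin_two]
    intro h
    apply hs'.1
    simp only [F, Matrix.det_fin_two, Polynomial.eval_add, Polynomial.eval_one, Polynomial.eval_mul,
      Polynomial.eval_C, Polynomial.eval_X, Polynomial.eval_pow]
    simp [Matrix.add_apply, Matrix.smul_apply] at h
    linear_combination h
  have h2 : ((x.2.2 + s • y.2.2) * R).rank = 2 := by
    apply rank_of_det
    rw [Matrix.add_mul, Matrix.smul_mul, hR, ← hB, Matrix.det_fin_two]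
    intro h
    apply hs'.2
    simp only [G, Matrix.det_fin_two, Polynomial.eval_add, Polynomial.eval_mul,
      Polynomial.eval_C, Polynomial.eval_X, Polynomial.eval_pow]
    simp [Matrix.add_apply, Matrix.smul_apply] at h
    linear_combination h
  have h3 := Matrix.rank_mul_le_right L (x.2.1 + s • y.2.1)
  have h4 := Matrix.rank_mul_le_left (x.2.2 + s • y.2.2) R
  simp only [Fintype.card_fin] at hr
  omega

end H321.FANU.TaskTwo
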