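import Pool.Agent.Q321.FANU.Stmts

set_option autoImplicit false

namespace H321.FANU.TaskUp42

open Matrix H321.FANU

/-- the map `(y, z) ↦ (c_j y + z_j)_j` -/
noncomputable def Phi {K : Type*} [Field K] (W : Submodule K (Fin 5 → K)) (k : ℕ) (c : Fin k → K) :
    ((Fin 5 → K) × (Fin k → W)) →ₗ[K] (Fin k → Fin 5 → K) :=
  LinearMap.pi fun j => c j • LinearMap.fst K _ _ +
    W.subtype ∘ₗ (LinearMap.proj j : (Fin k → W) →ₗ[K] W) ∘ₗ LinearMap.snd K _ _

lemma Phi_apply {K : Type*} [Field K] (W : Submodule K (Fin 5 → K)) (k : ℕ) (c : Fin k → K)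
    (y : Fin 5 → K) (z : Fin k → W) (j : Fin k) : Phi W k c (y, z) j = c j • y + (z j : Fin 5 → K) := by
  rfl

/-- the part of the kernel -/
noncomputable def Psi {K : Type*} [Field K] (W : Submodule K (Fin 5 → K)) (k : ℕ) (c : Fin k → K) :
    W →ₗ[K] ((Fin 5 → K) × (Fin k → W)) :=
  LinearMap.prod W.subtype (LinearMap.pi fun j => (-(c j)) • LinearMap.id)

lemma finrank_range {K : Type*} [Field K] (W : Submodule K (Fin 5 → K)) (hW : Module.finrank K W = 2)
    (k : ℕ) (c : Fin k → K) :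
    Module.finrank K (LinearMap.range (Phi W k c)) ≤ 2 * k + 3 := by
  have h1 := LinearMap.finrank_range_add_finrank_ker (Phi W k c)
  have h2 : Module.finrank K ((Fin 5 → K) × (Fin k → W)) = 5 + 2 * k := by
    rw [Module.finrank_prod, Module.finrank_fin_fun, Module.finrank_pi_fintype]
    simp [hW, mul_comm]
  have hinj : Function.Injective (Psi W k c) := by
    intro a b hab
    have := congrArg Prod.fst hab
    exact Subtype.ext this
  have h3 : LinearMap.range (Psi W k c) ≤ LinearMap.ker (Phi W k c) := by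
    rintro _ ⟨y, rfl⟩
    rw [LinearMap.mem_ker]
    funext j
    show c j • (y : Fin 5 → K) + (((-(c j)) • y : W) : Fin 5 → K) = 0
    rw [Submodule.coe_smul, neg_smul, add_neg_cancel]
  have h4 := Submodule.finrank_mono h3
  rw [LinearMap.finrank_range_of_inj hinj, hW] at h4
  omega

lemma decomp {K : Type*} [Field K] (V : Submodule K (Fin 5 → K)) (hV : Module.finrank K V = 4) :
    ∃ u : Fin 5 → K, ∀ x : Fin 5 → K, ∃ c : K, ∃ w ∈ V, x = c • u + w := by
  have hne : V ≠ ⊤ := by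
    intro h
    rw [h, finrank_top, Module.finrank_fin_fun] at hV
    omega
  obtain ⟨u, -, hu⟩ := SetLike.exists_of_lt (lt_top_iff_ne_top.2 hne)
  refine ⟨u, fun x => ?_⟩
  have hlt : V < V ⊔ Submodule.span K {u} := by
    refine lt_of_le_of_ne le_sup_left fun h => hu ?_
    rw [h]
    exact (le_sup_right : _ ≤ V ⊔ Submodule.span K {u}) (Submodule.mem_span_singleton_self u)
  have h5 := Submodule.finrank_lt_finrank_of_lt hlt
  have h6 : V ⊔ Submodule.span K {u} = ⊤ := by
    apply Submodule.eq_top_of_finrank_eq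
    have h7 := Submodule.finrank_le (V ⊔ Submodule.span K {u})
    rw [Module.finrank_fin_fun] at h7 ⊢
    omega
  have hx : x ∈ V ⊔ Submodule.span K {u} := by rw [h6]; trivial
  obtain ⟨w, hw, z, hz, rfl⟩ := Submodule.mem_sup.1 hx
  obtain ⟨c, rfl⟩ := Submodule.mem_span_singleton.1 hz
  exact ⟨c, w, hw, add_comm _ _⟩

lemma bound {K : Type*} [Field K] (U : Submodule K (M5 K)) (h : Cmp K 4 2 U) (k : ℕ)
    (v : Fin k → Fin 5 → K) : Module.finrank K (U.map (Lk K k v)) ≤ 2 * k + 3 := by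
  obtain ⟨V, W, hV, hW, hVW⟩ := h
  obtain ⟨u, hu⟩ := decomp V hV
  choose c w hw hx using fun j => hu (v j)
  refine le_trans (Submodule.finrank_mono ?_) (finrank_range W hW k c)
  rintro _ ⟨X, hX, rfl⟩
  refine ⟨(X *ᵥ u, fun j => ⟨X *ᵥ w j, hVW X hX _ (hw j)⟩), ?_⟩
  funext j
  rw [Phi_apply]
  show c j • (X *ᵥ u) + X *ᵥ w j = X *ᵥ v j
  rw [hx j, Matrix.mulVec_add, Matrix.mulVec_smul]

theorem main : TaskUp42 := by
  intro K _ U hU
  exact ⟨fun v => bound U hU 2 v, fun v => bound U hU 3 v⟩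

end H321.FANU.TaskUp42
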