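import Pool.Agent.Q321.FANU.Stmts

set_option autoImplicit false

namespace H321.FANU.TaskUp53

open Matrix H321.FANU

lemma bound (K : Type*) [Field K] (U : Submodule K (M5 K)) (W : Submodule K (Fin 5 → K))
    (hW : Module.finrank K W = 3) (h : ∀ X ∈ U, ∀ v, X *ᵥ v ∈ W) (k : ℕ)
    (v : Fin k → Fin 5 → K) : Module.finrank K (U.map (Lk K k v)) ≤ k * 3 := by
  have h1 : U.map (Lk K k v) ≤ LinearMap.range (W.subtype.compLeft (Fin k)) := by
    rintro _ ⟨X, hX, rfl⟩
    exact ⟨fun j => ⟨X *ᵥ v j, h X hX (v j)⟩, rfl⟩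
  calc Module.finrank K (U.map (Lk K k v))
      ≤ Module.finrank K (LinearMap.range (W.subtype.compLeft (Fin k))) :=
        Submodule.finrank_mono h1
    _ ≤ Module.finrank K (Fin k → W) := LinearMap.finrank_range_le _
    _ = k * 3 := by
        rw [Module.finrank_pi_fintype]
        simp [hW]

theorem main : H321.FANU.TaskUp53 := by
  intro K _ U hU
  obtain ⟨V, W, hV, hW, h⟩ := hU
  have hV2 : V = ⊤ := Submodule.eq_top_of_finrank_eq (by rw [hV]; simp)
  have h' : ∀ X ∈ U, ∀ v, X *ᵥ v ∈ W := fun X hX v => h X hX v (by rw [hV2]; trivial)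
  exact ⟨fun v => (bound K U W hW h' 2 v).trans (by norm_num),
    fun v => (bound K U W hW h' 3 v).trans (by norm_num)⟩

end H321.FANU.TaskUp53
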